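import Pool.Agent.H75.GS.Targets
import Pool.Agent.H59.NB.BBV

/-!
# MP_0f8dca_lc, row MGS: the average magnitude
-/

set_option autoImplicit false

namespace Pool.Agent.H89.GS

open Finset Filter Pool.Agent.H6.NB Pool.Agent.H70.OQ Pool.Agent.H75.GS

theorem pf_MGS : T_MGS := by
  classical
  intro X N0 Q O Ox L M hQ hM
  have hcnt : ∀ z, ∑ x ∈ N0, ic (∃ w, Q.query z = some w ∧ Ox x w ≠ O w) ≤ (M : ℝ) := by
    intro z
    cases hz : Q.query z with
    | none =>
      have h1 : ∀ x ∈ N0, ic (∃ w, (none : Option (List Bool)) = some w ∧ Ox x w ≠ O w) = 0 := by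
        intro x _
        unfold ic
        rw [if_neg]
        rintro ⟨w, hw, -⟩
        exact absurd hw (by simp)
      rw [Finset.sum_congr rfl h1, Finset.sum_const_zero]
      exact Nat.cast_nonneg M
    | some w =>
      have h1 : ∀ x ∈ N0, ic (∃ w', some w = some w' ∧ Ox x w' ≠ O w') =
          if Ox x w ≠ O w then (1 : ℝ) else 0 := by
        intro x _
        unfold ic
        by_cases h : Ox x w ≠ O w
        · rw [if_pos h, if_pos ⟨w, rfl, h⟩]
        · rw [if_neg h, if_neg]
          rintro ⟨w', hw', h'⟩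
          rw [Option.some.injEq] at hw'
          subst hw'
          exact h h'
      rw [Finset.sum_congr rfl h1, Finset.sum_boole]
      have h2 := hM w (hQ z w hz)
      have h3 : (N0.filter fun x => Ox x w ≠ O w).card ≤ M := by
        refine le_trans (le_of_eq ?_) h2
        exact congrArg Finset.card (Finset.filter_congr_decidable _ _ _)
      exact_mod_cast h3
  have hst : ∀ t, ∑ z, ‖Q.state O t z‖ ^ 2 = 1 := by
    intro t
    rw [← Pool.Agent.H59.NB.BBV.norm_ev_sq, Pool.Agent.H59.NB.BBV.norm_state, one_pow]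
  calc ∑ x ∈ N0, mg Q O (Ox x)
      = ∑ t ∈ range Q.T, ∑ z, (∑ x ∈ N0, ic (∃ w, Q.query z = some w ∧ Ox x w ≠ O w)) *
        ‖Q.state O t z‖ ^ 2 := by
        unfold mg
        rw [Finset.sum_comm]
        refine Finset.sum_congr rfl fun t _ => ?_
        rw [Finset.sum_comm]
        refine Finset.sum_congr rfl fun z _ => ?_
        rw [Finset.sum_mul]
    _ ≤ ∑ t ∈ range Q.T, ∑ z, (M : ℝ) * ‖Q.state O t z‖ ^ 2 :=
        Finset.sum_le_sum fun t _ => Finset.sum_le_sum fun z _ =>
          mul_le_mul_of_nonneg_right (hcnt z) (sq_nonneg _)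
    _ = Q.T * M := by
        have h1 : ∀ t ∈ range Q.T, ∑ z, (M : ℝ) * ‖Q.state O t z‖ ^ 2 = M := by
          intro t _
          rw [← Finset.mul_sum, hst, mul_one]
        rw [Finset.sum_congr rfl h1, Finset.sum_const, Finset.card_range, nsmul_eq_mul]

end Pool.Agent.H89.GS
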