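import Pool.Agent.H75.GS.Targets

/-!
# MP_0f8dca_lc, row MSK: the removal of a string
-/

set_option autoImplicit false

namespace Pool.Agent.H89.GS

open Finset Filter Pool.Agent.H6.NB Pool.Agent.H70.OQ Pool.Agent.H75.GS

theorem pf_MSK : T_MSK := by
  intro A hA
  have h2 : ∀ (s u : List Bool) O, s.length < u.length ^ 2 → (A s (msk u O) ↔ A s O) := by
    intro s u O h
    refine hA s _ _ fun w hw => ?_
    unfold msk
    rw [if_neg]
    rintro rfl
    omega
  refine ⟨fun H u s O O' h => ?_, h2, fun H u s O h => ?_⟩
  · unfold mskA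
    by_cases hs : s.length < H
    · rw [if_pos hs, if_pos hs]
      refine hA s _ _ fun w hw => ?_
      unfold msk
      by_cases hu : w = u
      · rw [if_pos hu, if_pos hu]
      · rw [if_neg hu, if_neg hu]
        exact h w hw
    · rw [if_neg hs, if_neg hs]
      exact hA s _ _ h
  · unfold mskA
    by_cases hs : s.length < H
    · rw [if_pos hs]
      exact h2 s u O h
    · rw [if_neg hs]

end Pool.Agent.H89.GS
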